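import Pool.Agent.Q81.JN.Stm

/-! JOB LB of project JN (helper81), MP_f39c46_an: the lower bound. -/

set_option autoImplicit false

namespace Pool.Agent.Q223.JN

open Pool.Agent.Q81.JN Complex Metric Set

theorem lb (hMF : S_MF) (hJF : S_JF) (hMI : S_MI) (hMII : S_MII) (hMIII : S_MIII)
    (hALB : S_ALB) : S_LB := by
  intro A B f q hP z hz hz0
  have hpar := hP.par
  have hr0 : 0 < ‖z‖ := norm_pos_iff.2 hz0
  have hr1 : ‖z‖ < 1 := by simpa using hz
  have hm0 : 0 < mm A B ‖z‖ := ((hMF A B hpar).2.1 ‖z‖ ⟨hr0.le, hr1.le⟩).1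
  have hg1 : 1 ≤ JS A B ‖z‖ := ((hJF A B hpar).2.1 ‖z‖ ⟨hr0.le, hr1⟩).2.2
  have hmd : mm A B ‖z‖ ≤ ‖deriv f z‖ := hMI A B f q hP z hz
  have hd0 : 0 < ‖deriv f z‖ := lt_of_lt_of_le hm0 hmd
  have hdne : deriv f z ≠ 0 := norm_pos_iff.1 hd0
  have h2 := hMII A B f q hP z hz hz0
  have h3 := hMIII A B f q hP z hz
  have hJS : JS A B ‖z‖ = MM A B ‖z‖ / (‖z‖ * mm A B ‖z‖) := by
    unfold JS
    rw [if_neg hr0.ne']
  -- `f = z f' J`
  have hfJ : f z = z * deriv f z * JJ f z := by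
    unfold JJ
    rw [if_neg hz0]
    field_simp
  generalize hJ : JJ f z = J at h2 h3 hfJ
  generalize hg : JS A B ‖z‖ = g at hg1 h3 hJS
  generalize hm : mm A B ‖z‖ = m at hm0 hmd hJS ⊢
  generalize hd : ‖deriv f z‖ = d at hmd hd0 h2
  generalize hr : ‖z‖ = r at *
  generalize hM : MM A B r = M at *
  have hx0 : 0 < m / d := div_pos hm0 hd0
  have hx1 : m / d ≤ 1 := (div_le_one hd0).2 hmd
  have hgx : g * (m / d) ≤ J.re := by
    have e1 : g * (m / d) = (M / r) / d := by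
      rw [hJS]
      field_simp
    rw [e1, div_le_iff₀ hd0]
    exact h2
  have hdisc : (J.re - 1 / 2) ^ 2 + J.im ^ 2 ≤ (g - 1 / 2) ^ 2 := by
    have e1 : ‖J - 1 / 2‖ ^ 2 = (J.re - 1 / 2) ^ 2 + J.im ^ 2 := by
      rw [Complex.sq_norm, Complex.normSq_apply]
      simp
      ring
    rw [← e1]
    exact pow_le_pow_left₀ (norm_nonneg _) h3 2
  have hxd : m / d * d = m := div_mul_cancel₀ m hd0.ne'
  constructor
  · intro t
    have h4 := hALB (m / d) g J.re J.im t hx0 hx1 hg1 hgx hdisc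
    have e2 : z * deriv f z - I * (t : ℂ) * f z = z * deriv f z * (1 - I * (t : ℂ) * J) := by
      rw [hfJ]
      ring
    have e3 : ‖1 - I * (t : ℂ) * J‖ ^ 2 = 1 + 2 * t * J.im + t ^ 2 * (J.re ^ 2 + J.im ^ 2) := by
      rw [Complex.sq_norm, Complex.normSq_apply]
      simp
      ring
    have e4 : ‖z * deriv f z - I * (t : ℂ) * f z‖ ^ 2 =
        (r * d) ^ 2 * (1 + 2 * t * J.im + t ^ 2 * (J.re ^ 2 + J.im ^ 2)) := by
      rw [e2, norm_mul, norm_mul, hr, hd, mul_pow, e3]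
    have e5 : (r * m * Real.sqrt (1 + t ^ 2 / 4)) ^ 2 =
        (r * d) ^ 2 * ((m / d) ^ 2 * (1 + t ^ 2 / 4)) := by
      rw [mul_pow, Real.sq_sqrt (by positivity)]
      have e6 : (r * m) ^ 2 = (r * d) ^ 2 * (m / d) ^ 2 := by
        rw [← mul_pow]
        congr 1
        rw [mul_assoc, mul_comm d, hxd]
      rw [e6]
      ring
    have h5 : (r * m * Real.sqrt (1 + t ^ 2 / 4)) ^ 2 ≤
        ‖z * deriv f z - I * (t : ℂ) * f z‖ ^ 2 := by
      rw [e4, e5]
      exact mul_le_mul_of_nonneg_left h4 (by positivity)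
    exact (pow_le_pow_iff_left₀ (by positivity) (norm_nonneg _) two_ne_zero).1 h5
  · have h6 : ‖f z‖ = r * d * ‖J‖ := by
      rw [hfJ, norm_mul, norm_mul, hr, hd]
    rw [h6]
    have h7 : J.re ≤ ‖J‖ := (le_abs_self _).trans (Complex.abs_re_le_norm J)
    have h8 : m / d ≤ g * (m / d) := by
      have := mul_le_mul_of_nonneg_right hg1 hx0.le
      linarith
    have h9 : m / d ≤ ‖J‖ := by linarith
    have h10 : r * m = r * d * (m / d) := by
      rw [mul_assoc, mul_comm d, hxd]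
    rw [h10]
    exact mul_le_mul_of_nonneg_left h9 (by positivity)

end Pool.Agent.Q223.JN
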