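import Pool.Agent.Q81.JN.Stm
import Pool.Agent.H712R2.Par

/-! JOB PK of project JN (helper81), MP_f39c46_an: members of the class satisfy `Pre`. -/

set_option autoImplicit false

namespace Pool.Agent.Q223.JN

open Pool.Agent.Q81.JN Complex Metric Set

/-- the algebra: `E = (a + s)(1 + B r) + (r - s)(1 - B s) ≥ 0` -/
theorem pk_alg (A B a s r : ℝ) (hB : -1 ≤ B) (hAB : B < A) (hA : A ≤ 1) (hs : 0 ≤ s)
    (hsr : s ≤ r) (hr : r < 1) (ha : -s ≤ a) :
    (1 - A * r) * (1 + 2 * B * a + B ^ 2 * s ^ 2) ≤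
      (1 + (A + B) * a + A * B * s ^ 2) * (1 - B * r) := by
  have hr0 : 0 ≤ r := hs.trans hsr
  have h1 : 0 ≤ 1 + B * r := by
    have h7 : 0 ≤ (B + 1) * r := mul_nonneg (by linarith) hr0
    linarith
  have h2 : 0 ≤ 1 - B * s := by
    have h7 : 0 ≤ (1 - B) * s := mul_nonneg (by linarith) hs
    linarith
  have h3 : 0 ≤ (a + s) * (1 + B * r) := mul_nonneg (by linarith) h1
  have h4 : 0 ≤ (r - s) * (1 - B * s) := mul_nonneg (by linarith) h2
  have h5 : 0 ≤ (A - B) * ((a + s) * (1 + B * r) + (r - s) * (1 - B * s)) :=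
    mul_nonneg (by linarith) (by linarith)
  have h6 : (1 + (A + B) * a + A * B * s ^ 2) * (1 - B * r) -
      (1 - A * r) * (1 + 2 * B * a + B ^ 2 * s ^ 2) =
      (A - B) * ((a + s) * (1 + B * r) + (r - s) * (1 - B * s)) := by ring
  linarith

/-- `Re ((1 + A w)/(1 + B w)) ≥ (1 - A r)/(1 - B r)` for `|w| ≤ r < 1` -/
theorem pk_re (A B : ℝ) (hP : Par A B) (w : ℂ) (r : ℝ) (hw : ‖w‖ ≤ r) (hr : r < 1)
    (hne : 1 + (B : ℂ) * w ≠ 0) :
    tau A B r ≤ ((1 + (A : ℂ) * w) / (1 + (B : ℂ) * w)).re := by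
  have hr0 : 0 ≤ r := (norm_nonneg w).trans hw
  have hB := hP.hB
  have hAB := hP.hAB
  have hA := hP.hA
  have hd : 0 < 1 - B * r := by
    rcases le_or_gt 0 B with h | h
    · have h1 : B * r ≤ B * 1 := mul_le_mul_of_nonneg_left hr.le h
      linarith
    · have h1 : B * r ≤ 0 := mul_nonpos_of_nonpos_of_nonneg h.le hr0
      linarith
  have hn : 0 < normSq (1 + (B : ℂ) * w) := normSq_pos.2 hne
  have hsq : w.re ^ 2 + w.im ^ 2 = ‖w‖ ^ 2 := by
    rw [Complex.sq_norm, Complex.normSq_apply]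
    ring
  have e1 : normSq (1 + (B : ℂ) * w) = 1 + 2 * B * w.re + B ^ 2 * ‖w‖ ^ 2 := by
    rw [← hsq, Complex.normSq_apply]
    simp
    ring
  have e2 : ((1 + (A : ℂ) * w) / (1 + (B : ℂ) * w)).re =
      (1 + (A + B) * w.re + A * B * ‖w‖ ^ 2) / normSq (1 + (B : ℂ) * w) := by
    rw [Complex.div_re, ← add_div, ← hsq]
    congr 1
    simp
    ring
  have ha : -‖w‖ ≤ w.re := (abs_le.1 (Complex.abs_re_le_norm w)).1
  have h := pk_alg A B w.re ‖w‖ r hB hAB hA (norm_nonneg w) hw hr ha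
  unfold tau
  rw [e2, div_le_div_iff₀ hd hn, e1]
  exact h

theorem pk : S_PK := by
  intro A B f hP hf
  obtain ⟨ω, hωd, hωm, hω0, hω⟩ := hf.sub
  have hne : ∀ z ∈ ball (0 : ℂ) 1, deriv f z ≠ 0 := fun z hz =>
    Pool.Agent.H712R2.M.deriv_ne_zero_of_injOn' isOpen_ball hf.inA.diff hf.inj hz
  have hB := hP.hB
  have hAB := hP.hAB
  have hA := hP.hA
  have hBabs : |B| ≤ 1 := abs_le.2 ⟨hB, by linarith⟩
  have hBne : ∀ z ∈ ball (0 : ℂ) 1, 1 + (B : ℂ) * ω z ≠ 0 := by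
    intro z hz h
    have h1 : (B : ℂ) * ω z = -1 := by linear_combination h
    have h2 : ‖(B : ℂ) * ω z‖ = 1 := by rw [h1]; simp
    have h3 : ‖ω z‖ < 1 := by simpa using hωm hz
    rw [norm_mul, Complex.norm_real, Real.norm_eq_abs] at h2
    have h4 : |B| * ‖ω z‖ ≤ 1 * ‖ω z‖ := mul_le_mul_of_nonneg_right hBabs (norm_nonneg _)
    linarith
  have hq1 : ∀ z ∈ ball (0 : ℂ) 1,
      1 + ((A : ℂ) - B) * ω z / (1 + (B : ℂ) * ω z) =
        (1 + (A : ℂ) * ω z) / (1 + (B : ℂ) * ω z) := by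
    intro z hz
    have := hBne z hz
    field_simp
    ring
  refine ⟨fun z => ((A : ℂ) - B) * ω z / (1 + (B : ℂ) * ω z), ?_⟩
  refine ⟨hP, hf.inA, hne, ?_, ?_, ?_⟩
  · apply DifferentiableOn.div
    · exact hωd.const_mul _
    · exact (hωd.const_mul _).const_add _
    · exact hBne
  · intro z hz
    have h1 : 1 + z * deriv (deriv f) z / deriv f z =
        (1 + (A : ℂ) * ω z) / (1 + (B : ℂ) * ω z) := hω z hz
    rw [← hq1 z hz] at h1
    have h2 : z * deriv (deriv f) z / deriv f z =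
        ((A : ℂ) - B) * ω z / (1 + (B : ℂ) * ω z) := by
      exact add_left_cancel h1
    have h3 := hne z hz
    rw [div_eq_iff h3] at h2
    exact h2
  · intro z hz
    have hz1 : ‖z‖ < 1 := by simpa using hz
    have hs : ‖ω z‖ ≤ ‖z‖ := Complex.norm_le_norm_of_mapsTo_ball hωd
      (hωm.mono_right ball_subset_closedBall) hω0 hz1
    have h1 := pk_re A B hP (ω z) ‖z‖ hs hz1 (hBne z hz)
    rw [← hq1 z hz, Complex.add_re, Complex.one_re] at h1
    exact h1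

end Pool.Agent.Q223.JN
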